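import Mathlib
import Pool.Agent.H451R3.Main

/-!
The set of smooth functions on `[0,1]` whose Taylor series has radius of convergence `0` at every
point is spaceable in the Fréchet space of smooth functions, over the real and over the complex
numbers: it contains, together with `0`, a closed infinite-dimensional subspace.
-/

namespace Pool.Agent.Results.MP_ffb385_an.Spaceable

open Pool.Agent.H451R3.PS

theorem result (𝕜 : Type*) [RCLike 𝕜] :
    ∃ V : Submodule 𝕜 (CInf 𝕜), @IsClosed (CInf 𝕜) (frechet 𝕜) (V : Set (CInf 𝕜)) ∧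
      ¬ FiniteDimensional 𝕜 V ∧ ∀ f ∈ V, f ≠ 0 → ∀ x : I, rho f x = 0 :=
  ⟨VV, isClosed_VV, not_fin, fun f hf hf0 x => rho_zero f hf hf0 x⟩

end Pool.Agent.Results.MP_ffb385_an.Spaceable
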